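import Pool.Agent.H.MP_a58584.D

set_option autoImplicit false
open Set Topology TopologicalSpace

namespace Pool.Agent.Results.MP_160dec_gt.Metr
open Pool.Agent.H.MP_a58584

theorem result (X : Type) [TopologicalSpace X] [T35Space X]
    (extral : ∀ (Y : Type) [TopologicalSpace Y] [T35Space Y] (e : X → Y), IsClosedEmbedding e →
      ∃ φ : {f : X → ℝ // Continuous f} → {g : Y → ℝ // Continuous g},
        Continuous φ ∧ ∀ (f : {f : X → ℝ // Continuous f}) (x : X), (φ f).1 (e x) = f.1 x)
    (extendial : ∀ F : Set X, IsClosed F →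
      ∃ φ : {f : F → ℝ // Continuous f} → {g : X → ℝ // Continuous g},
        Continuous φ ∧ ∀ (f : {f : F → ℝ // Continuous f}) (x : F), (φ f).1 x.1 = f.1 x) :
    MetrizableSpace X := by
  by_contra hm
  have hA : Cardinal.mk (Cardinal.aleph 1).out = Cardinal.aleph 1 := Cardinal.mk_out _
  obtain ⟨h, hh⟩ := TExtral.emb extral hm _ hA
  obtain ⟨B, e, h1, h2, h3⟩ := TExtral.cube extral
  exact noext hA (h1.comp hh.continuous) (h2.comp hh.injective)
    (((Ext.homeo hh.isEmbedding.toHomeomorph).comp (v := Subtype.val)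
      (extendial _ hh.isClosed_range)).comp h3)

end Pool.Agent.Results.MP_160dec_gt.Metr
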